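import Pool.Agent.TH432.WT.Defs

open Real Set MeasureTheory

namespace Pool.Agent.TH432.WT

variable {p : ℕ}

lemma pr_add (x y : Fin p → ℝ) : pr (x + y) = pr x + pr y := by
  funext i
  simp [pr]

lemma pr_int (k : Fin p → ℤ) : pr (fun i => (k i : ℝ)) = 0 := by
  funext i
  simp only [pr, Pi.zero_apply]
  have : ((k i : ℝ) : UnitAddCircle) = ((k i) • (1 : ℝ) : ℝ) := by simp
  rw [this, AddCircle.coe_zsmul, AddCircle.coe_period, smul_zero]

lemma continuous_pr : Continuous (pr : (Fin p → ℝ) → UnitAddTorus (Fin p)) := by
  refine continuous_pi fun i => ?_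
  exact (AddCircle.continuous_mk' 1).comp (continuous_apply i)

lemma pr_surj (y : UnitAddTorus (Fin p)) : ∃ x : Fin p → ℝ, pr x = y := by
  choose x hx using fun i => QuotientAddGroup.mk_surjective (y i)
  exact ⟨x, funext fun i => hx i⟩

instance instPC : IsProbabilityMeasure (volume : Measure UnitAddCircle) :=
  ⟨UnitAddCircle.measure_univ⟩

instance instPT : IsProbabilityMeasure (volume : Measure (UnitAddTorus (Fin p))) := by
  have : (volume : Measure (UnitAddTorus (Fin p)))
      = Measure.pi fun _ => (volume : Measure UnitAddCircle) := rfl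
  rw [this]
  infer_instance

/-- The line through `y` in the direction `k`. -/
def ln (k : Fin p → ℤ) (y : UnitAddTorus (Fin p)) (t : ℝ) : UnitAddTorus (Fin p) :=
  y + pr (fun i => t * (k i : ℝ))

lemma continuous_ln (k : Fin p → ℤ) :
    Continuous (fun z : ℝ × UnitAddTorus (Fin p) => ln k z.2 z.1) := by
  unfold ln
  refine continuous_snd.add (continuous_pr.comp ?_)
  exact continuous_pi fun i => continuous_fst.mul continuous_const

lemma continuous_ln' (k : Fin p → ℤ) (y : UnitAddTorus (Fin p)) : Continuous (ln k y) :=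
  (continuous_ln k).comp (by fun_prop : Continuous fun t : ℝ => (t, y))

variable {G : Type} [NormedAddCommGroup G] [NormedSpace ℝ G]

lemma integrable_of_cont {F : UnitAddTorus (Fin p) → G} (hF : Continuous F) : Integrable F :=
  hF.integrable_of_hasCompactSupport (HasCompactSupport.of_compactSpace F)

lemma bound_of_cont {F : UnitAddTorus (Fin p) → G} (hF : Continuous F) : ∃ C, ∀ y, ‖F y‖ ≤ C := by
  obtain ⟨C, hC⟩ := isCompact_univ.exists_bound_of_continuousOn hF.continuousOn
  exact ⟨C, fun y => hC y (mem_univ y)⟩

/-- The average over the lines is the average. -/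
lemma avg_line [CompleteSpace G] {F : UnitAddTorus (Fin p) → G} (hF : Continuous F)
    (k : Fin p → ℤ) : ∫ y, (∫ t in (0 : ℝ)..1, F (ln k y t)) = ∫ y, F y := by
  obtain ⟨C, hC⟩ := bound_of_cont hF
  have hint : Integrable (Function.uncurry fun (t : ℝ) (y : UnitAddTorus (Fin p)) => F (ln k y t))
      ((volume.restrict (Set.uIoc (0 : ℝ) 1)).prod volume) := by
    have : IsFiniteMeasure (volume.restrict (Set.uIoc (0 : ℝ) 1)) := by
      rw [Set.uIoc_of_le zero_le_one]
      infer_instance
    refine Integrable.of_bound (C := C) ?_ (Filter.Eventually.of_forall fun z => hC _)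
    exact (hF.comp (continuous_ln k)).aestronglyMeasurable
  rw [← intervalIntegral_integral_swap hint]
  have h1 : ∀ t : ℝ, ∫ y, F (ln k y t) = ∫ y, F y := by
    intro t
    unfold ln
    exact integral_add_right_eq_self F _
  simp only [h1]
  simp

/-- In dimension one all lines have the same average. -/
lemma line_one [CompleteSpace G] (hp : p = 1) {F : UnitAddTorus (Fin p) → G} (hF : Continuous F)
    {k : Fin p → ℤ} (hk : k ≠ 0) (y : UnitAddTorus (Fin p)) :
    ∫ t in (0 : ℝ)..1, F (ln k y t) = ∫ z, F z := by
  subst hp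
  have h0 : ∀ y', ∫ t in (0 : ℝ)..1, F (ln k y' t) = ∫ t in (0 : ℝ)..1, F (ln k y t) := by
    intro y'
    obtain ⟨x, hx⟩ := pr_surj (y' - y)
    have hk0 : (k 0 : ℝ) ≠ 0 := by
      intro h
      apply hk
      funext i
      have hi : i = 0 := Subsingleton.elim _ _
      rw [hi]
      exact_mod_cast h
    have hper : Function.Periodic (fun t => F (ln k y t)) 1 := by
      intro t
      simp only [ln]
      congr 2
      have : (fun i : Fin 1 => (t + 1) * (k i : ℝ)) = (fun i => t * (k i : ℝ)) + fun i => (k i : ℝ) := by
        funext i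
        simp only [Pi.add_apply]
        ring
      rw [this, pr_add, pr_int, add_zero]
    have h1 : ∀ t, F (ln k y' t) = F (ln k y (t + x 0 / k 0)) := by
      intro t
      have h2 : y' = y + pr x := by rw [hx]; abel
      rw [h2]
      simp only [ln]
      congr 1
      rw [add_assoc, ← pr_add]
      congr 2
      funext i
      have hi : i = 0 := Subsingleton.elim _ _
      rw [hi]
      simp only [Pi.add_apply]
      field_simp
      ring
    simp only [h1]
    rw [intervalIntegral.integral_comp_add_right (fun t => F (ln k y t)) (x 0 / k 0)]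
    have := hper.intervalIntegral_add_eq (x 0 / k 0) 0
    rw [zero_add] at this ⊢
    rw [add_comm 1 (x 0 / (k 0 : ℝ)), this]
  rw [← avg_line hF k]
  simp only [h0]
  simp

end Pool.Agent.TH432.WT
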