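import Mathlib

/-!
# Warped product metrics on tori: definitions

The torus is `T^p × ∏ j, V j / Λ j`; here `T^p = (ℝ/ℤ)^p`, the vectors `b i` form a basis of the Euclidean
space `E` and the flat metric of the base `T^p` is `‖∑ i, dx i • b i‖²`, and `Λ j` is a lattice of the
Euclidean space `V j`.  The metric is `‖∑ i, dx i • b i‖² + ∑ j, f j(x)² ‖dθ j + ∑ i, dx i • A j(x) i‖²`
for positive functions `f j` and `V j`-valued one-forms `A j` on `T^p`.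
-/

open Real Set MeasureTheory

namespace Pool.Agent.TH432.WT

/-- The point of the torus `T^p` with the coordinates `x`. -/
def pr {p : ℕ} (x : Fin p → ℝ) : UnitAddTorus (Fin p) := fun i => (x i : UnitAddCircle)

variable {p : ℕ} {ι : Type} [Fintype ι] {E : Type} [NormedAddCommGroup E] [InnerProductSpace ℝ E]
  {V : ι → Type} [∀ j, NormedAddCommGroup (V j)] [∀ j, InnerProductSpace ℝ (V j)]

/-- The length of the curve `(x, θ)`, `0 ≤ t ≤ 1`, for the metric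
`‖∑ i, dx i • b i‖² + ∑ j, f j(x)² ‖dθ j + ∑ i, dx i • A j(x) i‖²`. -/
noncomputable def len (b : Fin p → E) (f : ι → UnitAddTorus (Fin p) → ℝ)
    (A : ∀ j, UnitAddTorus (Fin p) → Fin p → V j) (x : ℝ → Fin p → ℝ) (θ : ∀ j, ℝ → V j) : ℝ :=
  ∫ t in (0 : ℝ)..1, √(‖∑ i, deriv x t i • b i‖ ^ 2 +
    ∑ j, f j (pr (x t)) ^ 2 * ‖deriv (θ j) t + ∑ i, deriv x t i • A j (pr (x t)) i‖ ^ 2)

/-- `(x, θ)`, `0 ≤ t ≤ 1`, is (a lift of) a closed curve in the torus of the class `(k, m)`. -/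
structure IsLoop (Λ : ∀ j, AddSubgroup (V j)) (x : ℝ → Fin p → ℝ) (θ : ∀ j, ℝ → V j)
    (k : Fin p → ℤ) (m : ∀ j, V j) : Prop where
  cx : ContDiff ℝ 1 x
  cθ : ∀ j, ContDiff ℝ 1 (θ j)
  mem : ∀ j, m j ∈ Λ j
  x1 : ∀ i, x 1 i = x 0 i + k i
  θ1 : ∀ j, θ j 1 = θ j 0 + m j

/-- The systole: the infimum of the lengths of the closed curves that are not null-homotopic. -/
noncomputable def sys (b : Fin p → E) (Λ : ∀ j, AddSubgroup (V j))
    (f : ι → UnitAddTorus (Fin p) → ℝ) (A : ∀ j, UnitAddTorus (Fin p) → Fin p → V j) : ℝ :=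
  sInf {ℓ | ∃ (x : ℝ → Fin p → ℝ) (θ : ∀ j, ℝ → V j) (k : Fin p → ℤ) (m : ∀ j, V j),
    IsLoop Λ x θ k m ∧ (k ≠ 0 ∨ m ≠ 0) ∧ ℓ = len b f A x θ}

/-- The volume, divided by the volume of the torus for the metric
`‖∑ i, dx i • b i‖² + ∑ j, ‖dθ j‖²`. -/
noncomputable def vol (V : ι → Type) [∀ j, NormedAddCommGroup (V j)] [∀ j, InnerProductSpace ℝ (V j)]
    (f : ι → UnitAddTorus (Fin p) → ℝ) : ℝ :=
  ∫ y : UnitAddTorus (Fin p), ∏ j, f j y ^ Module.finrank ℝ (V j)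

end Pool.Agent.TH432.WT
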