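import Pool.Agent.TH432.WT.Loop

set_option linter.unusedSectionVars false
set_option linter.unusedSimpArgs false

open Real Set MeasureTheory
open scoped RealInnerProductSpace

namespace Pool.Agent.TH432.WT

variable {p : ℕ} {ι : Type} [Fintype ι] {E : Type} [NormedAddCommGroup E] [InnerProductSpace ℝ E]
  {V : ι → Type} [∀ j, NormedAddCommGroup (V j)] [∀ j, InnerProductSpace ℝ (V j)]
  [∀ j, FiniteDimensional ℝ (V j)]

/-- Cauchy-Schwarz. -/
lemma cs (X : E) (Y : E) (a : ι → ℝ) (u v : ∀ j, V j) :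
    ⟪X, Y⟫ + ∑ j, a j ^ 2 * ⟪u j, v j⟫
      ≤ √(‖X‖ ^ 2 + ∑ j, a j ^ 2 * ‖u j‖ ^ 2) * √(‖Y‖ ^ 2 + ∑ j, a j ^ 2 * ‖v j‖ ^ 2) := by
  have h1 : ⟪X, Y⟫ ≤ ‖X‖ * ‖Y‖ := real_inner_le_norm X Y
  have h2 : ∑ j, a j ^ 2 * ⟪u j, v j⟫ ≤ ∑ j, (|a j| * ‖u j‖) * (|a j| * ‖v j‖) := by
    refine Finset.sum_le_sum fun j _ => ?_
    have h3 := real_inner_le_norm (u j) (v j)
    have h4 : (|a j| * ‖u j‖) * (|a j| * ‖v j‖) = a j ^ 2 * (‖u j‖ * ‖v j‖) := by
      rw [← sq_abs (a j)]; ring
    rw [h4]
    exact mul_le_mul_of_nonneg_left h3 (sq_nonneg _)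
  set S := ∑ j, (|a j| * ‖u j‖) * (|a j| * ‖v j‖) with hS
  set P := ∑ j, a j ^ 2 * ‖u j‖ ^ 2 with hP
  set Q := ∑ j, a j ^ 2 * ‖v j‖ ^ 2 with hQ
  have hP0 : 0 ≤ P := Finset.sum_nonneg fun j _ => by positivity
  have hQ0 : 0 ≤ Q := Finset.sum_nonneg fun j _ => by positivity
  have hS0 : 0 ≤ S := Finset.sum_nonneg fun j _ => by positivity
  have hSPQ : S ^ 2 ≤ P * Q := by
    have := Finset.sum_mul_sq_le_sq_mul_sq Finset.univ (fun j => |a j| * ‖u j‖)
      (fun j => |a j| * ‖v j‖)
    have e1 : ∑ j, (|a j| * ‖u j‖) ^ 2 = P := by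
      rw [hP]; refine Finset.sum_congr rfl fun j _ => ?_
      rw [mul_pow, sq_abs]
    have e2 : ∑ j, (|a j| * ‖v j‖) ^ 2 = Q := by
      rw [hQ]; refine Finset.sum_congr rfl fun j _ => ?_
      rw [mul_pow, sq_abs]
    rw [e1, e2] at this
    exact this
  have h5 : (‖X‖ * ‖Y‖ + S) ≤ √((‖X‖ ^ 2 + P) * (‖Y‖ ^ 2 + Q)) := by
    apply Real.le_sqrt_of_sq_le
    have h6 : 2 * (‖X‖ * ‖Y‖) * S ≤ ‖X‖ ^ 2 * Q + ‖Y‖ ^ 2 * P := by
      have h7 : S ≤ √P * √Q := by
        rw [← Real.sqrt_mul hP0]
        exact Real.le_sqrt_of_sq_le hSPQ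
      have h8 := Real.sq_sqrt hP0
      have h9 := Real.sq_sqrt hQ0
      have h10 : 0 ≤ ‖X‖ * ‖Y‖ := by positivity
      nlinarith [sq_nonneg (‖X‖ * √Q - ‖Y‖ * √P), mul_le_mul_of_nonneg_left h7 h10]
    nlinarith
  rw [Real.sqrt_mul (by positivity)] at h5
  linarith

/-- The length in a flat torus. -/
lemma flat_len (b : Fin p → E) {Λ : ∀ j, AddSubgroup (V j)} (a : ι → ℝ) (B : ∀ j, Fin p → V j)
    {x : ℝ → Fin p → ℝ} {θ : ∀ j, ℝ → V j} {k : Fin p → ℤ} {m : ∀ j, V j}
    (h : IsLoop Λ x θ k m) :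
    √(‖∑ i, (k i : ℝ) • b i‖ ^ 2 + ∑ j, (a j * ‖m j + ∑ i, (k i : ℝ) • B j i‖) ^ 2)
      ≤ len b (fun j _ => a j) (fun j _ => B j) x θ := by
  have hcomp : ∀ j, CompleteSpace (V j) := fun j => FiniteDimensional.complete ℝ (V j)
  set X : E := ∑ i, (k i : ℝ) • b i with hX
  set u : ∀ j, V j := fun j => m j + ∑ i, (k i : ℝ) • B j i with hu
  set D := √(‖X‖ ^ 2 + ∑ j, a j ^ 2 * ‖u j‖ ^ 2) with hD
  have e0 : ∑ j, (a j * ‖m j + ∑ i, (k i : ℝ) • B j i‖) ^ 2 = ∑ j, a j ^ 2 * ‖u j‖ ^ 2 :=
    Finset.sum_congr rfl fun j _ => mul_pow _ _ _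
  rw [e0, ← hD]
  have hxd : ∀ i, Differentiable ℝ (fun t => x t i) := fun i =>
    differentiable_pi.mp (h.cx.differentiable (by simp)) i
  have hx' : ∀ t i, deriv x t i = deriv (fun s => x s i) t := by
    intro t i
    have h1 : HasDerivAt x (deriv x t) t := (h.cx.differentiable (by simp) t).hasDerivAt
    exact ((hasDerivAt_pi.mp h1 i).deriv).symm
  have hxc : Continuous (deriv x) := h.cx.continuous_deriv (le_refl 1)
  have hxci : ∀ i, Continuous (fun t => deriv x t i) := fun i => (continuous_apply i).comp hxc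
  have hθc : ∀ j, Continuous (deriv (θ j)) := fun j => (h.cθ j).continuous_deriv (le_refl 1)
  have hxint : ∀ i, ∫ t in (0 : ℝ)..1, deriv x t i = k i := by
    intro i
    have h1 : ∀ t ∈ uIcc (0 : ℝ) 1, HasDerivAt (fun s => x s i) (deriv x t i) t := by
      intro t _
      exact hasDerivAt_pi.mp (h.cx.differentiable (by simp) t).hasDerivAt i
    rw [intervalIntegral.integral_eq_sub_of_hasDerivAt h1 ((hxci i).intervalIntegrable _ _), h.x1]
    ring
  have hθint : ∀ j, ∫ t in (0 : ℝ)..1, deriv (θ j) t = m j := by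
    intro j
    rw [intervalIntegral.integral_eq_sub_of_hasDerivAt
      (fun t _ => ((h.cθ j).differentiable (by simp) t).hasDerivAt)
      ((hθc j).intervalIntegrable _ _), h.θ1]
    abel
  set Y : ℝ → E := fun t => ∑ i, deriv x t i • b i with hY
  set v : ∀ j, ℝ → V j := fun j t => deriv (θ j) t + ∑ i, deriv x t i • B j i with hv
  have hYc : Continuous Y := continuous_finsetSum _ fun i _ => (hxci i).smul continuous_const
  have hvc : ∀ j, Continuous (v j) := fun j => (hθc j).add
    (continuous_finsetSum _ fun i _ => (hxci i).smul continuous_const)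
  have hYint : ∀ W : E, ∫ t in (0 : ℝ)..1, ⟪W, Y t⟫ = ⟪W, X⟫ := by
    intro W
    have h1 : ∀ t, ⟪W, Y t⟫ = ∑ i, deriv x t i * ⟪W, b i⟫ := by
      intro t
      rw [hY]
      simp only [inner_sum, inner_smul_right]
    simp only [h1]
    rw [intervalIntegral.integral_finset_sum, hX, inner_sum]
    · refine Finset.sum_congr rfl fun i _ => ?_
      rw [intervalIntegral.integral_mul_const, hxint, inner_smul_right]
    · exact fun i _ => ((hxci i).mul continuous_const).intervalIntegrable _ _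
  have hvint : ∀ j (W : V j), ∫ t in (0 : ℝ)..1, ⟪W, v j t⟫ = ⟪W, u j⟫ := by
    intro j W
    have hsc : Continuous fun t => ∑ i, deriv x t i • B j i :=
      continuous_finsetSum _ fun i _ => (hxci i).smul continuous_const
    have h2 : ∫ t in (0 : ℝ)..1, v j t = u j := by
      have h3 : ∫ t in (0 : ℝ)..1, v j t = ∫ t in (0 : ℝ)..1, (deriv (θ j) t
        + (fun t => ∑ i, deriv x t i • B j i) t) := rfl
      rw [h3, intervalIntegral.integral_add ((hθc j).intervalIntegrable _ _)
        (hsc.intervalIntegrable _ _), hθint, hu]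
      congr 1
      rw [intervalIntegral.integral_finset_sum]
      · refine Finset.sum_congr rfl fun i _ => ?_
        rw [intervalIntegral.integral_smul_const, hxint]
      · exact fun i _ => ((hxci i).smul continuous_const).intervalIntegrable _ _
    rw [← h2, intervalIntegral.integral_of_le zero_le_one,
      intervalIntegral.integral_of_le zero_le_one, integral_inner]
    exact ((hvc j).intervalIntegrable 0 1).1
  have hlen : len b (fun j _ => a j) (fun j _ => B j) x θ
      = ∫ t in (0 : ℝ)..1, √(‖Y t‖ ^ 2 + ∑ j, a j ^ 2 * ‖v j t‖ ^ 2) := rfl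
  have hsc : Continuous fun t => √(‖Y t‖ ^ 2 + ∑ j, a j ^ 2 * ‖v j t‖ ^ 2) := by
    refine ((hYc.norm.pow 2).add ?_).sqrt
    exact continuous_finsetSum _ fun j _ => continuous_const.mul ((hvc j).norm.pow 2)
  have hD2 : D ^ 2 = ‖X‖ ^ 2 + ∑ j, a j ^ 2 * ‖u j‖ ^ 2 :=
    Real.sq_sqrt (add_nonneg (sq_nonneg _) (Finset.sum_nonneg fun j _ => by positivity))
  have hi1 : ∫ t in (0 : ℝ)..1, (⟪X, Y t⟫ + ∑ j, a j ^ 2 * ⟪u j, v j t⟫) = D ^ 2 := by
    rw [intervalIntegral.integral_add, intervalIntegral.integral_finset_sum, hYint, hD2,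
      real_inner_self_eq_norm_sq]
    · congr 1
      refine Finset.sum_congr rfl fun j _ => ?_
      rw [intervalIntegral.integral_const_mul, hvint, real_inner_self_eq_norm_sq]
    · intro j _
      exact (continuous_const.mul (continuous_const.inner (hvc j))).intervalIntegrable _ _
    · exact (continuous_const.inner hYc).intervalIntegrable _ _
    · exact (continuous_finsetSum _ fun j _ => continuous_const.mul
        (continuous_const.inner (hvc j))).intervalIntegrable _ _
  have hi2 : D ^ 2 ≤ D * len b (fun j _ => a j) (fun j _ => B j) x θ := by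
    rw [← hi1, hlen, ← intervalIntegral.integral_const_mul]
    refine intervalIntegral.integral_mono_on zero_le_one ?_ ?_ fun t _ => cs X (Y t) a u
      (fun j => v j t)
    · exact ((continuous_const.inner hYc).add (continuous_finsetSum _ fun j _ =>
        continuous_const.mul (continuous_const.inner (hvc j)))).intervalIntegrable _ _
    · exact (continuous_const.mul hsc).intervalIntegrable _ _
  have hlen0 : 0 ≤ len b (fun j _ => a j) (fun j _ => B j) x θ := by
    rw [hlen]
    exact intervalIntegral.integral_nonneg zero_le_one fun t _ => Real.sqrt_nonneg _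
  rcases (Real.sqrt_nonneg (‖X‖ ^ 2 + ∑ j, a j ^ 2 * ‖u j‖ ^ 2)).eq_or_lt with h0 | h0
  · rw [← hD] at h0
    rw [← h0]
    exact hlen0
  · rw [← hD] at h0
    rw [sq] at hi2
    exact le_of_mul_le_mul_left hi2 h0

/-- The volume inequality. -/
lemma vol_le {f : ι → UnitAddTorus (Fin p) → ℝ} (hf : ∀ j, Continuous (f j))
    (hpos : ∀ j y, 0 < f j y) :
    vol V (fun j _ => hm (f j) : ι → UnitAddTorus (Fin p) → ℝ) ≤ vol V f ∧
    ((∀ j, 0 < Module.finrank ℝ (V j)) →
      (vol V (fun j _ => hm (f j) : ι → UnitAddTorus (Fin p) → ℝ) = vol V f) →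
      ∀ j y, f j y = hm (f j)) := by
  set d : ι → ℕ := fun j => Module.finrank ℝ (V j) with hd
  set a : ι → ℝ := fun j => hm (f j) with ha
  have ha0 : ∀ j, 0 < a j := fun j => hm_pos (hf j) (hpos j)
  set P : ℝ := ∏ j, a j ^ d j with hP
  have hP0 : 0 < P := Finset.prod_pos fun j _ => pow_pos (ha0 j) _
  have hv1 : vol V (fun j _ => hm (f j) : ι → UnitAddTorus (Fin p) → ℝ) = P := by
    unfold vol
    simp [hP, hd, ha]
  -- the comparison function
  set R : UnitAddTorus (Fin p) → ℝ := fun y => 1 - ∑ j, (d j : ℝ) * (a j * (f j y)⁻¹ - 1) with hR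
  have hRc : Continuous R := by
    refine continuous_const.sub (continuous_finsetSum _ fun j _ => ?_)
    exact continuous_const.mul ((continuous_const.mul (inv_cont (hf j) (hpos j))).sub
      continuous_const)
  have hgc : ∀ j, Continuous fun y => (d j : ℝ) * (a j * (f j y)⁻¹ - 1) := fun j =>
    continuous_const.mul ((continuous_const.mul (inv_cont (hf j) (hpos j))).sub continuous_const)
  have hsc : Continuous fun y => ∑ j, (d j : ℝ) * (a j * (f j y)⁻¹ - 1) :=
    continuous_finsetSum _ fun j _ => hgc j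
  have hRint : ∫ y, R y = 1 := by
    have h0 : ∫ y, R y = ∫ y, ((fun _ => (1 : ℝ)) y
      - (fun y => ∑ j, (d j : ℝ) * (a j * (f j y)⁻¹ - 1)) y) := rfl
    rw [h0, integral_sub (integrable_const _) (integrable_of_cont hsc),
      integral_finset_sum _ (fun j _ => integrable_of_cont (hgc j))]
    have h1 : ∀ j, ∫ y, (d j : ℝ) * (a j * (f j y)⁻¹ - 1) = 0 := by
      intro j
      rw [integral_const_mul, integral_sub ((integrable_of_cont (inv_cont (hf j) (hpos j))).const_mul
        _) (integrable_const _), integral_const_mul]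
      have h2 : a j * ∫ y, (f j y)⁻¹ = 1 := by
        have h3 : a j = (∫ y, (f j y)⁻¹)⁻¹ := rfl
        have h4 : ∫ y, (f j y)⁻¹ ≠ 0 := by
          intro h5
          have := ha0 j
          rw [h3, h5] at this
          simp at this
        rw [h3]
        exact inv_mul_cancel₀ h4
      rw [h2]
      simp
    simp only [h1]
    simp
  set F : UnitAddTorus (Fin p) → ℝ := fun y => ∏ j, f j y ^ d j with hF
  have hFc : Continuous F := continuous_finsetProd _ fun j _ => (hf j).pow _
  have hlog : ∀ y, 1 + ∑ j, (d j : ℝ) * Real.log (f j y / a j) ≤ F y / P := by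
    intro y
    have h1 : F y / P = ∏ j, (f j y / a j) ^ d j := by
      rw [hF, hP]
      simp only
      rw [← Finset.prod_div_distrib]
      exact Finset.prod_congr rfl fun j _ => (div_pow _ _ _).symm
    have h2 : 0 < F y / P := div_pos (Finset.prod_pos fun j _ => pow_pos (hpos j y) _) hP0
    have h3 := Real.log_le_sub_one_of_pos h2
    have h4 : Real.log (F y / P) = ∑ j, (d j : ℝ) * Real.log (f j y / a j) := by
      rw [h1, Real.log_prod fun j _ => (pow_pos (div_pos (hpos j y) (ha0 j)) _).ne']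
      refine Finset.sum_congr rfl fun j _ => ?_
      rw [Real.log_pow]
    linarith
  have hterm : ∀ j y, -(a j * (f j y)⁻¹ - 1) ≤ Real.log (f j y / a j) := by
    intro j y
    have h1 : 0 < a j * (f j y)⁻¹ := mul_pos (ha0 j) (inv_pos.mpr (hpos j y))
    have h2 := Real.log_le_sub_one_of_pos h1
    have h3 : Real.log (a j * (f j y)⁻¹) = -Real.log (f j y / a j) := by
      rw [← Real.log_inv, inv_div, div_eq_mul_inv]
    linarith
  have hle : ∀ y, R y ≤ F y / P := by
    intro y
    refine le_trans ?_ (hlog y)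
    rw [hR]
    simp only
    have h1 : ∑ j, (d j : ℝ) * (-(a j * (f j y)⁻¹ - 1)) ≤ ∑ j, (d j : ℝ) * Real.log (f j y / a j) :=
      Finset.sum_le_sum fun j _ => mul_le_mul_of_nonneg_left (hterm j y) (Nat.cast_nonneg _)
    simp only [mul_neg, Finset.sum_neg_distrib] at h1
    linarith
  have hvol : vol V f = ∫ y, F y := rfl
  have hI : 1 ≤ (∫ y, F y) / P := by
    have h0 : ∫ y, R y ≤ ∫ y, F y / P :=
      integral_mono (integrable_of_cont hRc) ((integrable_of_cont hFc).div_const _) hle
    rwa [hRint, integral_div] at h0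
  refine ⟨?_, fun hd0 heq => ?_⟩
  · rw [hv1, hvol]
    rwa [le_div_iff₀ hP0, one_mul] at hI
  · by_contra hcon
    push Not at hcon
    obtain ⟨j, y, hjy⟩ := hcon
    rw [hv1, hvol] at heq
    have h1 : 0 < ∫ z, (F z / P - R z) := by
      refine integral_pos_of_cont ((hFc.div_const _).sub hRc) (fun z => sub_nonneg.mpr (hle z)) y ?_
      refine (sub_pos.mpr ?_).ne'
      refine lt_of_lt_of_le ?_ (hlog y)
      rw [hR]
      simp only
      have h2 : ∑ j, (d j : ℝ) * (-(a j * (f j y)⁻¹ - 1))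
          < ∑ j, (d j : ℝ) * Real.log (f j y / a j) := by
        refine Finset.sum_lt_sum (fun i _ => mul_le_mul_of_nonneg_left (hterm i y)
          (Nat.cast_nonneg _)) ⟨j, Finset.mem_univ j, ?_⟩
        refine mul_lt_mul_of_pos_left ?_ (by exact_mod_cast hd0 j)
        have h3 : 0 < a j * (f j y)⁻¹ := mul_pos (ha0 j) (inv_pos.mpr (hpos j y))
        have h4 : a j * (f j y)⁻¹ ≠ 1 := by
          intro h5
          apply hjy
          have := (hpos j y).ne'
          field_simp at h5
          exact h5.symm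
        have h5 := Real.log_lt_sub_one_of_pos h3 h4
        have h6 : Real.log (a j * (f j y)⁻¹) = -Real.log (f j y / a j) := by
          rw [← Real.log_inv, inv_div, div_eq_mul_inv]
        linarith
      simp only [mul_neg, Finset.sum_neg_distrib] at h2
      linarith
    rw [integral_sub ((integrable_of_cont hFc).div_const _) (integrable_of_cont hRc),
      integral_div, hRint, ← heq, div_self hP0.ne', sub_self] at h1
    exact lt_irrefl _ h1

end Pool.Agent.TH432.WT
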