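import Pool.Agent.TH432.WT.Sel

set_option linter.unusedSectionVars false
set_option linter.unusedSimpArgs false

open Real Set MeasureTheory
open scoped RealInnerProductSpace

namespace Pool.Agent.TH432.WT

variable {p : ℕ} {ι : Type} [Fintype ι] {E : Type} [NormedAddCommGroup E] [InnerProductSpace ℝ E]
  {V : ι → Type} [∀ j, NormedAddCommGroup (V j)] [∀ j, InnerProductSpace ℝ (V j)]
  [∀ j, FiniteDimensional ℝ (V j)]

/-- The harmonic mean. -/
noncomputable def hm (F : UnitAddTorus (Fin p) → ℝ) : ℝ := (∫ y, (F y)⁻¹)⁻¹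

lemma inv_cont {F : UnitAddTorus (Fin p) → ℝ} (hF : Continuous F) (hpos : ∀ y, 0 < F y) :
    Continuous fun y => (F y)⁻¹ := hF.inv₀ fun y => (hpos y).ne'

lemma hm_pos {F : UnitAddTorus (Fin p) → ℝ} (hF : Continuous F) (hpos : ∀ y, 0 < F y) :
    0 < hm F := by
  unfold hm
  exact inv_pos.mpr (integral_pos_of_cont (inv_cont hF hpos) (fun y => (inv_pos.mpr (hpos y)).le) 0
    (inv_pos.mpr (hpos 0)).ne')

lemma eta_avg {F : UnitAddTorus (Fin p) → ℝ} (hF : Continuous F) (hpos : ∀ y, 0 < F y)
    (k : Fin p → ℤ) : ∫ y, eta F k y = (hm F)⁻¹ := by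
  unfold eta hm
  rw [avg_line (inv_cont hF hpos) k, inv_inv]

/-- The average connection. -/
noncomputable def av {W : Type} [NormedAddCommGroup W] [InnerProductSpace ℝ W]
    (A : UnitAddTorus (Fin p) → Fin p → W) (i : Fin p) : W := ∫ y, A y i

/-- The hypothesis. -/
def Hyp (V : ι → Type) [∀ j, NormedAddCommGroup (V j)] [∀ j, InnerProductSpace ℝ (V j)]
    (A : ∀ j, UnitAddTorus (Fin p) → Fin p → V j) : Prop :=
  p = 1 ∨ Subsingleton ι ∧ ((∀ j y y', A j y = A j y') ∨ ∀ j, Module.finrank ℝ (V j) = 1)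

lemma select {f : ι → UnitAddTorus (Fin p) → ℝ} {A : ∀ j, UnitAddTorus (Fin p) → Fin p → V j}
    (hf : ∀ j, Continuous (f j)) (hpos : ∀ j y, 0 < f j y) (hA : ∀ j, Continuous (A j))
    (H : Hyp V A) {k : Fin p → ℤ} (hk : k ≠ 0) (m : ∀ j, V j) :
    ∃ y, ∑ j, (‖m j + hol (A j) k y‖ / eta (f j) k y) ^ 2
      ≤ ∑ j, (hm (f j) * ‖m j + ∑ i, (k i : ℝ) • av (A j) i‖) ^ 2 := by
  have hcomp : ∀ j, CompleteSpace (V j) := fun j => FiniteDimensional.complete ℝ (V j)
  rcases H with hp | ⟨hsub, hA'⟩
  · refine ⟨0, le_of_eq (Finset.sum_congr rfl fun j _ => ?_)⟩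
    have h1 : eta (f j) k 0 = (hm (f j))⁻¹ := by
      rw [← eta_avg (hf j) (hpos j) k]
      have h2 : ∀ y, eta (f j) k y = ∫ z, (f j z)⁻¹ := fun y =>
        line_one hp (inv_cont (hf j) (hpos j)) hk y
      simp only [h2]
      simp
    have h3 : hol (A j) k 0 = ∑ i, (k i : ℝ) • av (A j) i := by
      have h4 : ∀ y, hol (A j) k y = ∫ z, ∑ i, (k i : ℝ) • A j z i := fun y =>
        line_one hp (comb_cont (hA j) k) hk y
      have h5 := hol_avg (hA j) k
      simp only [h4] at h5
      rw [h4]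
      simpa [av] using h5
    rw [h1, h3, div_inv_eq_mul, mul_comm]
  · rcases isEmpty_or_nonempty ι with hem | ⟨⟨j0⟩⟩
    · exact ⟨0, by simp⟩
    · have hsum : ∀ g : ι → ℝ, ∑ j, g j = g j0 := fun g =>
        Fintype.sum_eq_single j0 fun j hj => absurd (Subsingleton.elim j j0) hj
      simp only [hsum]
      have ha := hm_pos (hf j0) (hpos j0)
      rcases hA' with hc | hd
      · -- constant connection
        obtain ⟨y, hy⟩ := exists_integral_le (μ := (volume : Measure (UnitAddTorus (Fin p))))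
          (integrable_of_cont (eta_cont (hf j0) (hpos j0) k))
        rw [eta_avg (hf j0) (hpos j0) k] at hy
        refine ⟨y, ?_⟩
        have h3 : hol (A j0) k y = ∑ i, (k i : ℝ) • av (A j0) i := by
          unfold hol av
          have h4 : ∀ z, A j0 z = A j0 0 := fun z => hc j0 z 0
          simp only [h4]
          simp
        rw [h3]
        have he := eta_pos (hf j0) (hpos j0) k y
        have h5 : ‖m j0 + ∑ i, (k i : ℝ) • av (A j0) i‖ / eta (f j0) k y
            ≤ hm (f j0) * ‖m j0 + ∑ i, (k i : ℝ) • av (A j0) i‖ := by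
          rw [div_le_iff₀ he]
          have h6 : 1 ≤ hm (f j0) * eta (f j0) k y := by
            calc (1 : ℝ) = hm (f j0) * (hm (f j0))⁻¹ := by field_simp
              _ ≤ _ := mul_le_mul_of_nonneg_left hy ha.le
          have h7 := norm_nonneg (m j0 + ∑ i, (k i : ℝ) • av (A j0) i)
          nlinarith
        exact pow_le_pow_left₀ (by positivity) h5 2
      · -- one-dimensional fibre
        obtain ⟨e, he⟩ : ∃ e : V j0, ‖e‖ = 1 := by
          have : Nontrivial (V j0) := by
            rw [← Module.finrank_pos_iff (R := ℝ), hd j0]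
            exact one_pos
          exact exists_norm_eq (V j0) zero_le_one
        have hne : e ≠ 0 := by
          intro h; rw [h] at he; simp at he
        have hnorm : ∀ v : V j0, ‖v‖ = |⟪e, v⟫| := by
          intro v
          obtain ⟨c, hc⟩ := (finrank_eq_one_iff_of_nonzero' e hne).mp (hd j0) v
          rw [← hc, norm_smul, he, mul_one, inner_smul_right, real_inner_self_eq_norm_sq, he]
          simp
        set s : UnitAddTorus (Fin p) → ℝ := fun y => ⟪e, m j0 + hol (A j0) k y⟫ with hs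
        have hscont : Continuous s :=
          continuous_const.inner (continuous_const.add (hol_cont (hA j0) k))
        have hsint : ∫ y, s y = ⟪e, m j0 + ∑ i, (k i : ℝ) • av (A j0) i⟫ := by
          rw [hs]
          simp only
          rw [integral_inner, integral_add (integrable_const _)
            (integrable_of_cont (hol_cont (hA j0) k)), hol_avg (hA j0) k]
          · simp [av]
          · exact integrable_of_cont (continuous_const.add (hol_cont (hA j0) k))
        obtain ⟨y, hy⟩ := sign_trick hscont (eta_cont (hf j0) (hpos j0) k)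
          (eta_pos (hf j0) (hpos j0) k) ha (eta_avg (hf j0) (hpos j0) k)
        refine ⟨y, ?_⟩
        have he' := eta_pos (hf j0) (hpos j0) k y
        have h5 : ‖m j0 + hol (A j0) k y‖ / eta (f j0) k y
            ≤ hm (f j0) * ‖m j0 + ∑ i, (k i : ℝ) • av (A j0) i‖ := by
          rw [div_le_iff₀ he', hnorm, hnorm, ← hsint]
          exact hy
        exact pow_le_pow_left₀ (by positivity) h5 2

/-- The straight loops over a line. -/
lemma exists_loop (b : Fin p → E) {Λ : ∀ j, AddSubgroup (V j)}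
    {f : ι → UnitAddTorus (Fin p) → ℝ} {A : ∀ j, UnitAddTorus (Fin p) → Fin p → V j}
    (hf : ∀ j, Continuous (f j)) (hpos : ∀ j y, 0 < f j y) (hA : ∀ j, Continuous (A j))
    (k : Fin p → ℤ) (m : ∀ j, V j) (hm : ∀ j, m j ∈ Λ j) (y : UnitAddTorus (Fin p)) :
    ∃ x θ, IsLoop Λ x θ k m ∧ len b f A x θ = √(‖∑ i, (k i : ℝ) • b i‖ ^ 2
      + ∑ j, (‖m j + hol (A j) k y‖ / eta (f j) k y) ^ 2) := by
  have hcomp : ∀ j, CompleteSpace (V j) := fun j => FiniteDimensional.complete ℝ (V j)
  obtain ⟨x0, hx0⟩ := pr_surj y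
  set x : ℝ → Fin p → ℝ := fun t => x0 + fun i => t * (k i : ℝ) with hx
  have hxd : ∀ t, HasDerivAt x (fun i => (k i : ℝ)) t := by
    intro t
    rw [hasDerivAt_pi]
    intro i
    simp only [hx, Pi.add_apply]
    have := ((hasDerivAt_id t).mul_const (k i : ℝ)).const_add (x0 i)
    simpa using this
  have hxd' : ∀ t, deriv x t = fun i => (k i : ℝ) := fun t => (hxd t).deriv
  have hprx : ∀ t, pr (x t) = ln k y t := by
    intro t
    rw [hx, ← hx0]
    simp only
    rw [pr_add]
    rfl
  set w : ∀ j, V j := fun j => m j + hol (A j) k y with hw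
  set g : ∀ j, ℝ → V j := fun j t => (f j (ln k y t))⁻¹ • ((eta (f j) k y)⁻¹ • w j)
    - ∑ i, (k i : ℝ) • A j (ln k y t) i with hg
  have hgc : ∀ j, Continuous (g j) := by
    intro j
    refine Continuous.sub ?_ ((comb_cont (hA j) k).comp (continuous_ln' k y))
    exact (((hf j).comp (continuous_ln' k y)).inv₀ fun t => (hpos _ _).ne').smul continuous_const
  set θ : ∀ j, ℝ → V j := fun j t => ∫ s in (0 : ℝ)..t, g j s with hθ
  have hθd : ∀ j t, HasDerivAt (θ j) (g j t) t := fun j t =>
    ((hgc j).integral_hasStrictDerivAt 0 t).hasDerivAt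
  have hθd' : ∀ j, deriv (θ j) = g j := fun j => funext fun t => (hθd j t).deriv
  refine ⟨x, θ, ⟨?_, fun j => ?_, hm, fun i => ?_, fun j => ?_⟩, ?_⟩
  · rw [contDiff_one_iff_deriv]
    refine ⟨fun t => (hxd t).differentiableAt, ?_⟩
    have : deriv x = fun _ => fun i => (k i : ℝ) := funext hxd'
    rw [this]
    exact continuous_const
  · rw [contDiff_one_iff_deriv, hθd']
    exact ⟨fun t => (hθd j t).differentiableAt, hgc j⟩
  · simp [hx]
  · have h0 : θ j 0 = 0 := by simp [hθ]
    have h1 : θ j 1 = m j := by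
      simp only [hθ, hg]
      rw [intervalIntegral.integral_sub, intervalIntegral.integral_smul_const]
      · have h2 : ∫ t in (0 : ℝ)..1, (f j (ln k y t))⁻¹ = eta (f j) k y := rfl
        have h3 : ∫ t in (0 : ℝ)..1, ∑ i, (k i : ℝ) • A j (ln k y t) i = hol (A j) k y := rfl
        rw [h2, h3, smul_smul, mul_inv_cancel₀ (eta_pos (hf j) (hpos j) k y).ne', one_smul, hw]
        simp
      · exact ((((hf j).comp (continuous_ln' k y)).inv₀ fun t => (hpos _ _).ne').smul
          continuous_const).intervalIntegrable _ _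
      · exact ((comb_cont (hA j) k).comp (continuous_ln' k y)).intervalIntegrable _ _
    rw [h0, h1, zero_add]
  · unfold len
    have h1 : ∀ t, √(‖∑ i, deriv x t i • b i‖ ^ 2 + ∑ j, f j (pr (x t)) ^ 2
        * ‖deriv (θ j) t + ∑ i, deriv x t i • A j (pr (x t)) i‖ ^ 2)
        = √(‖∑ i, (k i : ℝ) • b i‖ ^ 2 + ∑ j, (‖w j‖ / eta (f j) k y) ^ 2) := by
      intro t
      rw [hxd', hprx]
      congr 2
      refine Finset.sum_congr rfl fun j _ => ?_
      rw [hθd']
      simp only [hg]
      rw [sub_add_cancel, norm_smul, norm_smul, norm_inv, norm_inv, Real.norm_eq_abs,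
        Real.norm_eq_abs, abs_of_pos (hpos _ _), abs_of_pos (eta_pos (hf j) (hpos j) k y)]
      have h2 := (hpos j (ln k y t)).ne'
      have h3 := (eta_pos (hf j) (hpos j) k y).ne'
      field_simp
    simp only [h1]
    simp [hw]

end Pool.Agent.TH432.WT
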