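import Pool.Agent.TH432.WT.Flat

set_option linter.unusedSectionVars false
set_option linter.unusedSimpArgs false

open Real Set MeasureTheory
open scoped RealInnerProductSpace

namespace Pool.Agent.TH432.WT

variable {p : ℕ} {ι : Type} [Fintype ι] {E : Type} [NormedAddCommGroup E] [InnerProductSpace ℝ E]
  {V : ι → Type} [∀ j, NormedAddCommGroup (V j)] [∀ j, InnerProductSpace ℝ (V j)]
  [∀ j, FiniteDimensional ℝ (V j)]

lemma le_hm {F : UnitAddTorus (Fin p) → ℝ} (hF : Continuous F) (hpos : ∀ y, 0 < F y)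
    {y0 : UnitAddTorus (Fin p)} (hy : ∀ y, F y0 ≤ F y) : F y0 ≤ hm F := by
  have h1 : ∫ y, (F y)⁻¹ ≤ (F y0)⁻¹ := by
    have h2 : ∫ y, (F y)⁻¹ ≤ ∫ _ : UnitAddTorus (Fin p), (F y0)⁻¹ :=
      integral_mono (integrable_of_cont (inv_cont hF hpos)) (integrable_const _)
        fun y => inv_anti₀ (hpos y0) (hy y)
    simpa using h2
  have h3 : 0 < ∫ y, (F y)⁻¹ := by
    have := hm_pos hF hpos
    unfold hm at this
    exact inv_pos.mp this
  unfold hm
  rw [le_inv_comm₀ (hpos y0) h3]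
  exact h1

/-- The loops in a fibre. -/
lemma fibre_loop (b : Fin p → E) {Λ : ∀ j, AddSubgroup (V j)}
    {f : ι → UnitAddTorus (Fin p) → ℝ} (A : ∀ j, UnitAddTorus (Fin p) → Fin p → V j)
    (hf : ∀ j, Continuous (f j)) (hpos : ∀ j y, 0 < f j y)
    (m : ∀ j, V j) (hm' : ∀ j, m j ∈ Λ j) (hm0 : m ≠ 0) :
    ∃ x θ m', IsLoop Λ x θ 0 m' ∧ m' ≠ 0 ∧ len b f A x θ ≤ √(∑ j, (hm (f j) * ‖m j‖) ^ 2) := by
  classical
  obtain ⟨j0, hj0⟩ : ∃ j, m j ≠ 0 := by
    by_contra hcon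
    push Not at hcon
    exact hm0 (funext hcon)
  obtain ⟨y0, _, hy0⟩ := isCompact_univ.exists_isMinOn (univ_nonempty (α := UnitAddTorus (Fin p)))
    (hf j0).continuousOn
  obtain ⟨x0, hx0⟩ := pr_surj y0
  set m' : ∀ j, V j := fun j => if j = j0 then m j else 0 with hm'd
  have hmj0 : m' j0 = m j0 := by simp [hm'd]
  refine ⟨fun _ => x0, fun j t => t • m' j, m', ⟨contDiff_const, fun j =>
    contDiff_id.smul contDiff_const, fun j => ?_, fun i => ?_, fun j => ?_⟩, ?_, ?_⟩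
  · simp only [hm'd]
    split_ifs with h
    · exact hm' j
    · exact (Λ j).zero_mem
  · simp
  · simp
  · intro h
    have := congrFun h j0
    rw [hmj0] at this
    exact hj0 this
  · have hd : ∀ j t, deriv (fun t : ℝ => t • m' j) t = m' j := by
      intro j t
      have := ((hasDerivAt_id t).smul_const (m' j)).deriv
      simpa using this
    unfold len
    have h1 : ∀ t : ℝ, √(‖∑ i, deriv (fun _ : ℝ => x0) t i • b i‖ ^ 2
        + ∑ j, f j (pr ((fun _ : ℝ => x0) t)) ^ 2 * ‖deriv (fun t : ℝ => t • m' j) t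
        + ∑ i, deriv (fun _ : ℝ => x0) t i • A j (pr ((fun _ : ℝ => x0) t)) i‖ ^ 2)
        = f j0 y0 * ‖m j0‖ := by
      intro t
      simp only [deriv_const, Pi.zero_apply, zero_smul, Finset.sum_const_zero, norm_zero, add_zero,
        hd, hx0]
      rw [Finset.sum_eq_single j0]
      · rw [hmj0, zero_pow two_ne_zero, zero_add, ← mul_pow, Real.sqrt_sq]
        exact mul_nonneg (hpos _ _).le (norm_nonneg _)
      · intro j _ hj
        have : m' j = 0 := by simp [hm'd, hj]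
        rw [this]
        simp
      · intro h
        exact absurd (Finset.mem_univ _) h
    simp only [h1]
    rw [intervalIntegral.integral_const]
    simp only [sub_zero, one_smul]
    apply Real.le_sqrt_of_sq_le
    refine le_trans ?_ (Finset.single_le_sum (f := fun j => (hm (f j) * ‖m j‖) ^ 2)
      (fun j _ => sq_nonneg _) (Finset.mem_univ j0))
    have h2 := le_hm (hf j0) (hpos j0) (y0 := y0) (fun y => hy0 (mem_univ y))
    exact pow_le_pow_left₀ (mul_nonneg (hpos _ _).le (norm_nonneg _))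
      (mul_le_mul_of_nonneg_right h2 (norm_nonneg _)) 2

lemma len_nonneg (b : Fin p → E) (f : ι → UnitAddTorus (Fin p) → ℝ)
    (A : ∀ j, UnitAddTorus (Fin p) → Fin p → V j) (x : ℝ → Fin p → ℝ) (θ : ∀ j, ℝ → V j) :
    0 ≤ len b f A x θ :=
  intervalIntegral.integral_nonneg zero_le_one fun _ _ => Real.sqrt_nonneg _

/-- The comparison with a flat metric. -/
theorem main (b : Fin p → E) (Λ : ∀ j, AddSubgroup (V j))
    {f : ι → UnitAddTorus (Fin p) → ℝ} {A : ∀ j, UnitAddTorus (Fin p) → Fin p → V j}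
    (hf : ∀ j, Continuous (f j)) (hpos : ∀ j y, 0 < f j y) (hA : ∀ j, Continuous (A j))
    (H : Hyp V A) :
    sys b Λ f A ≤ sys b Λ (fun j _ => hm (f j)) (fun j _ => av (A j)) := by
  unfold sys
  have hbdd : BddBelow {ℓ | ∃ (x : ℝ → Fin p → ℝ) (θ : ∀ j, ℝ → V j) (k : Fin p → ℤ) (m : ∀ j, V j),
      IsLoop Λ x θ k m ∧ (k ≠ 0 ∨ m ≠ 0) ∧ ℓ = len b f A x θ} := by
    refine ⟨0, ?_⟩
    rintro ℓ ⟨x, θ, k, m, _, _, rfl⟩
    exact len_nonneg b f A x θ
  rcases Set.eq_empty_or_nonempty {ℓ | ∃ (x : ℝ → Fin p → ℝ) (θ : ∀ j, ℝ → V j) (k : Fin p → ℤ)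
      (m : ∀ j, V j), IsLoop Λ x θ k m ∧ (k ≠ 0 ∨ m ≠ 0) ∧
      ℓ = len b (fun j _ => hm (f j)) (fun j _ => av (A j)) x θ} with hem | hne
  · have hem' : {ℓ | ∃ (x : ℝ → Fin p → ℝ) (θ : ∀ j, ℝ → V j) (k : Fin p → ℤ) (m : ∀ j, V j),
      IsLoop Λ x θ k m ∧ (k ≠ 0 ∨ m ≠ 0) ∧ ℓ = len b f A x θ} = ∅ := by
      rw [Set.eq_empty_iff_forall_notMem] at hem ⊢
      rintro ℓ ⟨x, θ, k, m, h1, h2, rfl⟩
      exact hem _ ⟨x, θ, k, m, h1, h2, rfl⟩
    rw [hem, hem']
  · refine le_csInf hne ?_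
    rintro ℓ ⟨x, θ, k, m, hl, hkm, rfl⟩
    have hflat := flat_len b (fun j => hm (f j)) (fun j => av (A j)) hl
    by_cases hk : k = 0
    · subst hk
      have hm0 : m ≠ 0 := by
        rcases hkm with h | h
        · exact absurd rfl h
        · exact h
      obtain ⟨x', θ', m', hl', hm'0, hlen⟩ := fibre_loop b A hf hpos m hl.mem hm0
      refine (csInf_le hbdd ⟨x', θ', 0, m', hl', Or.inr hm'0, rfl⟩).trans (hlen.trans ?_)
      refine le_trans (le_of_eq ?_) hflat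
      congr 1
      simp
    · obtain ⟨y, hy⟩ := select hf hpos hA H hk m
      obtain ⟨x', θ', hl', hlen⟩ := exists_loop b (Λ := Λ) hf hpos hA k m hl.mem y
      refine (csInf_le hbdd ⟨x', θ', k, m, hl', Or.inl hk, rfl⟩).trans ?_
      rw [hlen]
      refine le_trans (Real.sqrt_le_sqrt ?_) hflat
      linarith

end Pool.Agent.TH432.WT
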