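import Pool.Agent.TH432.WT.Avg

open Real Set MeasureTheory

namespace Pool.Agent.TH432.WT

variable {p : ℕ}

lemma integral_pos_of_cont {F : UnitAddTorus (Fin p) → ℝ} (hF : Continuous F) (h0 : ∀ y, 0 ≤ F y)
    (y : UnitAddTorus (Fin p)) (hy : F y ≠ 0) : 0 < ∫ z, F z :=
  hF.integral_pos_of_hasCompactSupport_nonneg_nonzero (HasCompactSupport.of_compactSpace F) h0 hy

lemma preconn : IsPreconnected (univ : Set (UnitAddTorus (Fin p))) := by
  have h1 : (univ : Set (UnitAddTorus (Fin p))) = pr '' univ := by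
    symm
    rw [eq_univ_iff_forall]
    intro y
    obtain ⟨x, hx⟩ := pr_surj y
    exact ⟨x, mem_univ _, hx⟩
  rw [h1]
  exact isPreconnected_univ.image _ continuous_pr.continuousOn

/-- A weighted mean value argument. -/
lemma sign_trick {s η : UnitAddTorus (Fin p) → ℝ} (hs : Continuous s) (hη : Continuous η)
    (hηpos : ∀ y, 0 < η y) {a : ℝ} (ha : 0 < a) (hav : ∫ y, η y = a⁻¹) :
    ∃ y, |s y| ≤ a * |∫ z, s z| * η y := by
  by_contra hcon
  push Not at hcon
  have hne : ∀ y, s y ≠ 0 := by
    intro y h0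
    have h1 := hcon y
    rw [h0, abs_zero] at h1
    have h2 := hηpos y
    have : 0 ≤ a * |∫ z, s z| * η y := by positivity
    linarith
  have key : ∀ u : UnitAddTorus (Fin p) → ℝ, Continuous u → (∀ y, 0 < u y) →
      (∀ y, a * |∫ z, u z| * η y < u y) → False := by
    intro u hu hupos hlt
    obtain ⟨y0, _⟩ := pr_surj (0 : UnitAddTorus (Fin p))
    have h1 : 0 < ∫ y, (u y - a * |∫ z, u z| * η y) := by
      refine integral_pos_of_cont (hu.sub (continuous_const.mul hη))
        (fun y => (sub_pos.mpr (hlt y)).le) 0 ?_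
      exact (sub_pos.mpr (hlt 0)).ne'
    rw [integral_sub (integrable_of_cont hu) ((integrable_of_cont hη).const_mul _),
      integral_const_mul, hav] at h1
    have h2 : a * |∫ z, u z| * a⁻¹ = |∫ z, u z| := by field_simp
    rw [h2] at h1
    have h3 := le_abs_self (∫ z, u z)
    linarith
  rcases lt_or_gt_of_ne (hne 0) with h0 | h0
  · -- negative
    have hneg : ∀ y, s y < 0 := by
      intro y
      by_contra hy
      push Not at hy
      obtain ⟨z, _, hz⟩ := preconn.intermediate_value (mem_univ (0 : UnitAddTorus (Fin p)))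
        (mem_univ y) hs.continuousOn (⟨h0.le, hy⟩ : (0 : ℝ) ∈ Icc (s 0) (s y))
      exact hne z hz
    refine key (fun y => -s y) hs.neg (fun y => by linarith [hneg y]) (fun y => ?_)
    have h1 := hcon y
    rw [integral_neg, abs_neg]
    rwa [abs_of_neg (hneg y)] at h1
  · have hposs : ∀ y, 0 < s y := by
      intro y
      by_contra hy
      push Not at hy
      obtain ⟨z, _, hz⟩ := preconn.intermediate_value (mem_univ y)
        (mem_univ (0 : UnitAddTorus (Fin p))) hs.continuousOn
        (⟨hy, h0.le⟩ : (0 : ℝ) ∈ Icc (s y) (s 0))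
      exact hne z hz
    refine key s hs hposs (fun y => ?_)
    have h1 := hcon y
    rwa [abs_of_pos (hposs y)] at h1

variable {ι : Type} [Fintype ι] {V : ι → Type} [∀ j, NormedAddCommGroup (V j)]
  [∀ j, InnerProductSpace ℝ (V j)] [∀ j, FiniteDimensional ℝ (V j)]

/-- The line integral of `1 / f`. -/
noncomputable def eta (F : UnitAddTorus (Fin p) → ℝ) (k : Fin p → ℤ) (y : UnitAddTorus (Fin p)) : ℝ :=
  ∫ t in (0 : ℝ)..1, (F (ln k y t))⁻¹

lemma eta_pos {F : UnitAddTorus (Fin p) → ℝ} (hF : Continuous F) (hpos : ∀ y, 0 < F y)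
    (k : Fin p → ℤ) (y : UnitAddTorus (Fin p)) : 0 < eta F k y := by
  refine intervalIntegral.intervalIntegral_pos_of_pos_on ?_ (fun t _ => inv_pos.mpr (hpos _))
    zero_lt_one
  exact ((hF.comp (continuous_ln' k y)).inv₀ fun t => (hpos _).ne').intervalIntegrable _ _

lemma eta_cont {F : UnitAddTorus (Fin p) → ℝ} (hF : Continuous F) (hpos : ∀ y, 0 < F y)
    (k : Fin p → ℤ) : Continuous (eta F k) := by
  unfold eta
  refine intervalIntegral.continuous_parametric_intervalIntegral_of_continuous' ?_ 0 1
  have : Continuous (fun z : UnitAddTorus (Fin p) × ℝ => F (ln k z.1 z.2)) :=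
    hF.comp ((continuous_ln k).comp continuous_swap)
  exact this.inv₀ fun z => (hpos _).ne'

/-- The line integral of the connection form. -/
noncomputable def hol {W : Type} [NormedAddCommGroup W] [InnerProductSpace ℝ W]
    (A : UnitAddTorus (Fin p) → Fin p → W) (k : Fin p → ℤ) (y : UnitAddTorus (Fin p)) : W :=
  ∫ t in (0 : ℝ)..1, ∑ i, (k i : ℝ) • A (ln k y t) i

lemma comb_cont {W : Type} [NormedAddCommGroup W] [InnerProductSpace ℝ W]
    {A : UnitAddTorus (Fin p) → Fin p → W} (hA : Continuous A) (k : Fin p → ℤ) :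
    Continuous (fun y => ∑ i, (k i : ℝ) • A y i) :=
  continuous_finsetSum _ fun i _ => (continuous_const.smul ((continuous_apply i).comp hA))

lemma hol_cont {W : Type} [NormedAddCommGroup W] [InnerProductSpace ℝ W]
    {A : UnitAddTorus (Fin p) → Fin p → W} (hA : Continuous A) (k : Fin p → ℤ) :
    Continuous (hol A k) := by
  unfold hol
  refine intervalIntegral.continuous_parametric_intervalIntegral_of_continuous' ?_ 0 1
  exact (comb_cont hA k).comp ((continuous_ln k).comp continuous_swap)

lemma hol_avg {W : Type} [NormedAddCommGroup W] [InnerProductSpace ℝ W] [FiniteDimensional ℝ W]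
    {A : UnitAddTorus (Fin p) → Fin p → W} (hA : Continuous A) (k : Fin p → ℤ) :
    ∫ y, hol A k y = ∑ i, (k i : ℝ) • ∫ y, A y i := by
  have : CompleteSpace W := FiniteDimensional.complete ℝ W
  unfold hol
  rw [avg_line (comb_cont hA k) k, integral_finset_sum]
  · refine Finset.sum_congr rfl fun i _ => ?_
    rw [integral_smul]
  · intro i _
    exact integrable_of_cont (continuous_const.smul ((continuous_apply i).comp hA))

end Pool.Agent.TH432.WT
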